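import Mathlib
import Pool.Agent.H83.LS.Targets3

/-!
# Local smoothing for axially symmetric data: low frequencies (module LOWF)
-/

set_option autoImplicit false

namespace Pool.Agent.H94.LS

open MeasureTheory Set Filter Topology
open scoped ENNReal NNReal ContDiff Nat
open Pool.Agent.H83.LS

/-- entire functions given by their coefficients -/
lemma entire (c : ℕ → ℝ) (hc : ∀ n, |c n| ≤ ((n ! : ℕ) : ℝ)⁻¹) :
    ∃ f : ℝ → ℝ, ContDiff ℝ (⊤ : ℕ∞) f ∧ ∀ x, HasSum (fun n => c n * x ^ n) (f x) := by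
  set p := FormalMultilinearSeries.ofScalars ℝ c with hp
  have hrad : p.radius = ⊤ := by
    refine FormalMultilinearSeries.radius_eq_top_of_summable_norm _ fun r => ?_
    refine Summable.of_nonneg_of_le (fun n => by positivity) (fun n => ?_)
      (Real.summable_pow_div_factorial r)
    rw [hp, FormalMultilinearSeries.ofScalars_norm, Real.norm_eq_abs, div_eq_inv_mul]
    exact mul_le_mul_of_nonneg_right (hc n) (by positivity)
  have hpos : 0 < p.radius := by rw [hrad]; exact ENNReal.coe_lt_top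
  have hF := p.hasFPowerSeriesOnBall hpos
  refine ⟨p.sum, ?_, fun x => ?_⟩
  · rw [contDiff_iff_contDiffAt]
    intro x
    have h1 : AnalyticAt ℝ p.sum x := hF.analyticAt_of_mem (by
      rw [hrad]
      simp)
    exact h1.contDiffAt
  · have h1 := hF.hasSum (y := x) (by
      rw [hrad]
      simp)
    rw [zero_add] at h1
    have h2 : (fun n => c n * x ^ n) = fun n => p n fun _ => x := by
      funext n
      rw [hp, FormalMultilinearSeries.ofScalars_apply_eq, smul_eq_mul]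
    rw [h2]
    exact h1

/-- the cosine is a smooth function of the square -/
lemma cos_sq : ∃ f : ℝ → ℝ, ContDiff ℝ (⊤ : ℕ∞) f ∧ ∀ x, f (x ^ 2) = Real.cos x := by
  obtain ⟨f, hf, hs⟩ := entire (fun n => (-1) ^ n / ((2 * n)! : ℕ)) (fun n => by
    rw [abs_div, abs_pow, abs_neg, abs_one, one_pow, Nat.abs_cast, one_div]
    refine inv_anti₀ (by positivity) ?_
    exact_mod_cast Nat.factorial_le (by omega))
  refine ⟨f, hf, fun x => ?_⟩
  have h1 := hs (x ^ 2)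
  have h2 : (fun n : ℕ => (-1 : ℝ) ^ n / ((2 * n)! : ℕ) * (x ^ 2) ^ n) =
      fun n : ℕ => (-1) ^ n * x ^ (2 * n) / ((2 * n)! : ℕ) := by
    funext n
    rw [← pow_mul]
    ring
  rw [h2] at h1
  exact h1.unique (Real.hasSum_cos x)

/-- the cardinal sine is a smooth function of the square -/
lemma sinc_sq : ∃ f : ℝ → ℝ, ContDiff ℝ (⊤ : ℕ∞) f ∧ ∀ x, x * f (x ^ 2) = Real.sin x := by
  obtain ⟨f, hf, hs⟩ := entire (fun n => (-1) ^ n / ((2 * n + 1)! : ℕ)) (fun n => by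
    rw [abs_div, abs_pow, abs_neg, abs_one, one_pow, Nat.abs_cast, one_div]
    refine inv_anti₀ (by positivity) ?_
    exact_mod_cast Nat.factorial_le (by omega))
  refine ⟨f, hf, fun x => ?_⟩
  have h1 := (hs (x ^ 2)).mul_left x
  have h2 : (fun n : ℕ => x * ((-1 : ℝ) ^ n / ((2 * n + 1)! : ℕ) * (x ^ 2) ^ n)) =
      fun n : ℕ => (-1) ^ n * x ^ (2 * n + 1) / ((2 * n + 1)! : ℕ) := by
    funext n
    rw [← pow_mul]
    ring
  rw [h2] at h1
  exact h1.unique (Real.hasSum_sin x)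

/-- the radial cutoff is smooth -/
lemma contDiff_eta0 (d : ℕ) : ContDiff ℝ (⊤ : ℕ∞) (fun ξ : EE d => eta0 ‖ξ‖) := by
  rw [contDiff_iff_contDiffAt]
  intro ξ
  by_cases hξ : ξ = 0
  · have h1 : (fun ξ : EE d => eta0 ‖ξ‖) =ᶠ[𝓝 ξ] fun _ => 1 := by
      rw [hξ]
      filter_upwards [Metric.ball_mem_nhds (0 : EE d) one_pos] with x hx
      rw [mem_ball_zero_iff] at hx
      unfold eta0
      exact Real.smoothTransition.one_of_one_le (by linarith)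
    exact contDiffAt_const.congr_of_eventuallyEq h1
  · unfold eta0
    exact Real.smoothTransition.contDiffAt.comp ξ (contDiffAt_const.sub (contDiffAt_norm ℝ hξ))

/-- decay of kernels gives `L¹` bounds, uniformly in the parameter -/
lemma key (h : T_KBV) (d : ℕ) (Ψ : (Fin 1 → ℝ) × EE d → ℂ) (hΨ : ContDiff ℝ (⊤ : ℕ∞) Ψ) (R : ℝ)
    (hR : ∀ q, R < ‖q.2‖ → Ψ q = 0) : ∃ C : ℝ≥0, ∀ t ∈ Icc (0 : ℝ) 2,
      ∫⁻ x : EE d, ‖MK (fun ξ : EE d => Ψ (fun _ => t, ξ)) x‖ₑ ≤ C := by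
  obtain ⟨C, hC⟩ := h d 1 (Icc (fun _ => 0) (fun _ => 2)) univ Ψ R isCompact_Icc isOpen_univ (subset_univ _)
    hΨ.contDiffOn (fun p _ ξ hξ => hR (p, ξ) hξ) (d + 1)
  have hfin : ∫⁻ x : EE d, ENNReal.ofReal ((1 + ‖x‖) ^ (-((d : ℝ) + 1))) < (⊤ : ℝ≥0∞) := by
    refine finite_integral_one_add_norm ?_
    rw [finrank_euclideanSpace_fin]
    linarith
  have hfin2 : ENNReal.ofReal |C| * ∫⁻ x : EE d, ENNReal.ofReal ((1 + ‖x‖) ^ (-((d : ℝ) + 1))) ≠ (⊤ : ℝ≥0∞) :=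
    ENNReal.mul_ne_top ENNReal.ofReal_ne_top hfin.ne
  refine ⟨(ENNReal.ofReal |C| * ∫⁻ x : EE d, ENNReal.ofReal ((1 + ‖x‖) ^ (-((d : ℝ) + 1)))).toNNReal,
    fun t ht => ?_⟩
  rw [ENNReal.coe_toNNReal hfin2, ← lintegral_const_mul' _ _ ENNReal.ofReal_ne_top]
  refine lintegral_mono fun x => ?_
  have h1 := hC (fun _ => t) ⟨fun _ => ht.1, fun _ => ht.2⟩ x
  have h2 : 0 < (1 + ‖x‖) ^ (d + 1) := by positivity
  have h3 : ‖MK (fun ξ : EE d => Ψ (fun _ => t, ξ)) x‖ ≤ |C| * (1 + ‖x‖) ^ (-((d : ℝ) + 1)) := by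
    have h4 : (1 + ‖x‖) ^ (-((d : ℝ) + 1)) = ((1 + ‖x‖) ^ (d + 1))⁻¹ := by
      rw [Real.rpow_neg (by positivity), ← Real.rpow_natCast]
      push_cast
      rfl
    rw [h4, ← div_eq_mul_inv, le_div_iff₀ h2]
    exact h1.trans (le_abs_self C)
  rw [← ENNReal.ofReal_mul (abs_nonneg C), ← ofReal_norm_eq_enorm]
  exact ENNReal.ofReal_le_ofReal h3

theorem lowf (h : T_KBV) : T_LOWF := by
  intro d r hd
  obtain ⟨f, hf, hfc⟩ := cos_sq
  obtain ⟨g, hg, hgs⟩ := sinc_sq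
  have hbase : ∀ q : (Fin 1 → ℝ) × EE d, (0 : ℝ) < 1 + 4 * Real.pi ^ 2 * ‖q.2‖ ^ 2 := fun q => by positivity
  have hsq : ContDiff ℝ (⊤ : ℕ∞) (fun q : (Fin 1 → ℝ) × EE d => ‖q.2‖ ^ 2) := by
    exact (contDiff_norm_sq ℝ).comp contDiff_snd
  have ht : ContDiff ℝ (⊤ : ℕ∞) (fun q : (Fin 1 → ℝ) × EE d => q.1 0) := by
    exact (contDiff_apply ℝ ℝ (0 : Fin 1)).comp contDiff_fst
  have h1 : ContDiff ℝ (⊤ : ℕ∞) (fun q : (Fin 1 → ℝ) × EE d => eta0 ‖q.2‖) :=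
    (contDiff_eta0 d).comp contDiff_snd
  have h2 : ContDiff ℝ (⊤ : ℕ∞) (fun q : (Fin 1 → ℝ) × EE d =>
      (1 + 4 * Real.pi ^ 2 * ‖q.2‖ ^ 2) ^ (-r / 2)) := by
    refine ContDiff.rpow_const_of_ne ?_ fun q => (hbase q).ne'
    exact contDiff_const.add (contDiff_const.mul hsq)
  have h3 : ContDiff ℝ (⊤ : ℕ∞) (fun q : (Fin 1 → ℝ) × EE d =>
      (2 * Real.pi * q.1 0) ^ 2 * ‖q.2‖ ^ 2) := by
    exact ((contDiff_const.mul ht).pow 2).mul hsq
  have heta : ∀ s : ℝ, 2 < s → eta0 s = 0 := by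
    intro s hs
    unfold eta0
    exact Real.smoothTransition.zero_of_nonpos (by linarith)
  obtain ⟨C1, hC1⟩ := key h d (fun q => ((eta0 ‖q.2‖ * f ((2 * Real.pi * q.1 0) ^ 2 * ‖q.2‖ ^ 2) *
      (1 + 4 * Real.pi ^ 2 * ‖q.2‖ ^ 2) ^ (-r / 2) : ℝ) : ℂ))
    (Complex.ofRealCLM.contDiff.comp ((h1.mul (hf.comp h3)).mul h2)) 2
    (fun q hq => by rw [heta _ hq]; simp)
  obtain ⟨C2, hC2⟩ := key h d (fun q => ((eta0 ‖q.2‖ * (q.1 0 * g ((2 * Real.pi * q.1 0) ^ 2 * ‖q.2‖ ^ 2)) *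
      (1 + 4 * Real.pi ^ 2 * ‖q.2‖ ^ 2) ^ (-r / 2) : ℝ) : ℂ))
    (Complex.ofRealCLM.contDiff.comp ((h1.mul (ht.mul (hg.comp h3))).mul h2)) 2
    (fun q hq => by rw [heta _ hq]; simp)
  refine ⟨max C1 C2, fun t htI => ⟨?_, ?_⟩⟩
  · refine le_trans ?_ ((hC1 t htI).trans (by exact_mod_cast le_max_left C1 C2))
    refine lintegral_mono fun x => le_of_eq ?_
    congr 3
    funext ξ
    have : f ((2 * Real.pi * t) ^ 2 * ‖ξ‖ ^ 2) = Real.cos (2 * Real.pi * t * ‖ξ‖) := by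
      rw [← hfc, mul_pow (2 * Real.pi * t)]
    rw [this]
  · refine le_trans ?_ ((hC2 t htI).trans (by exact_mod_cast le_max_right C1 C2))
    refine lintegral_mono fun x => le_of_eq ?_
    congr 1
    unfold MK
    have : Nonempty (Fin d) := ⟨⟨0, by omega⟩⟩
    have : Nontrivial (EE d) := inferInstance
    refine integral_congr_ae ?_
    have hne : ∀ᵐ ξ : EE d, ξ ≠ 0 := by
      rw [ae_iff]
      simp
    filter_upwards [hne] with ξ hξ
    have hn : 0 < ‖ξ‖ := norm_pos_iff.mpr hξ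
    have h5 : Real.sin (2 * Real.pi * t * ‖ξ‖) / (2 * Real.pi * ‖ξ‖) =
        t * g ((2 * Real.pi * t) ^ 2 * ‖ξ‖ ^ 2) := by
      rw [← hgs, mul_pow (2 * Real.pi * t)]
      have : Real.pi ≠ 0 := Real.pi_ne_zero
      field_simp
    rw [h5]

end Pool.Agent.H94.LS
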